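import Pool.Agent.Helper86.Acute.Geo
import Pool.Agent.Helper86.Acute.Rules

/-! Packet GEO of MP_1a78aa_co: plane geometry, sign rules. -/

namespace Pool.Agent.Helper22.Acute

open Pool.Agent.Helper86.Acute

/-- sign bit -/
noncomputable def sg (x : ℝ) : Bool := decide (0 < x)

theorem sg_pos {x : ℝ} (h : 0 < x) : sg x = true := by simp [sg, h]
theorem sg_neg {x : ℝ} (h : x < 0) : sg x = false := by
  simp [sg, le_of_lt h]

theorem sg_not {x : ℝ} (h : x ≠ 0) : (!sg x) = sg (-x) := by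
  rcases lt_or_gt_of_ne h with h | h
  · rw [sg_neg h, sg_pos (by linarith)]; rfl
  · rw [sg_pos h, sg_neg (by linarith)]; rfl

theorem reR_ok (N : ℝ) {d1 d2 c1 c2 d : ℝ} (h1 : d1 ≠ 0) (h2 : d2 ≠ 0) (h3 : c1 ≠ 0)
    (h4 : c2 ≠ 0) (h5 : d ≠ 0) (hN : 0 < N) (h : d1 * d2 - c1 * c2 = N * d) :
    reR (sg d1) (sg d2) (sg c1) (sg c2) (sg d) = true := by
  rcases lt_or_gt_of_ne h1 with h1 | h1 <;> rcases lt_or_gt_of_ne h2 with h2 | h2 <;>
  rcases lt_or_gt_of_ne h3 with h3 | h3 <;> rcases lt_or_gt_of_ne h4 with h4 | h4 <;>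
  rcases lt_or_gt_of_ne h5 with h5 | h5 <;>
  simp only [sg_pos, sg_neg, h1, h2, h3, h4, h5, reR] <;> first | rfl | skip
  all_goals exfalso
  all_goals
    first
    | nlinarith [mul_pos hN h5, mul_pos h1 h2, mul_neg_of_pos_of_neg h3 h4]
    | nlinarith [mul_pos hN h5, mul_pos h1 h2, mul_neg_of_neg_of_pos h3 h4]
    | nlinarith [mul_pos hN h5, mul_neg_of_pos_of_neg h1 h2, mul_pos h3 h4]
    | nlinarith [mul_pos hN h5, mul_neg_of_neg_of_pos h1 h2, mul_pos h3 h4]
    | nlinarith [mul_pos hN h5, mul_pos_of_neg_of_neg h1 h2, mul_neg_of_pos_of_neg h3 h4]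
    | nlinarith [mul_pos hN h5, mul_pos_of_neg_of_neg h1 h2, mul_neg_of_neg_of_pos h3 h4]
    | nlinarith [mul_pos hN h5, mul_neg_of_pos_of_neg h1 h2, mul_pos_of_neg_of_neg h3 h4]
    | nlinarith [mul_pos hN h5, mul_neg_of_neg_of_pos h1 h2, mul_pos_of_neg_of_neg h3 h4]
    | nlinarith [mul_neg_of_pos_of_neg hN h5, mul_pos h1 h2, mul_neg_of_pos_of_neg h3 h4]
    | nlinarith [mul_neg_of_pos_of_neg hN h5, mul_pos h1 h2, mul_neg_of_neg_of_pos h3 h4]
    | nlinarith [mul_neg_of_pos_of_neg hN h5, mul_neg_of_pos_of_neg h1 h2, mul_pos h3 h4]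
    | nlinarith [mul_neg_of_pos_of_neg hN h5, mul_neg_of_neg_of_pos h1 h2, mul_pos h3 h4]
    | nlinarith [mul_neg_of_pos_of_neg hN h5, mul_pos_of_neg_of_neg h1 h2,
        mul_neg_of_pos_of_neg h3 h4]
    | nlinarith [mul_neg_of_pos_of_neg hN h5, mul_pos_of_neg_of_neg h1 h2,
        mul_neg_of_neg_of_pos h3 h4]

theorem imR_ok (N : ℝ) {d1 d2 c1 c2 d : ℝ} (h1 : d1 ≠ 0) (h2 : d2 ≠ 0) (h3 : c1 ≠ 0)
    (h4 : c2 ≠ 0) (h5 : d ≠ 0) (hN : 0 < N) (h : d1 * c2 + c1 * d2 = N * d) :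
    imR (sg d1) (sg d2) (sg c1) (sg c2) (sg d) = true := by
  rcases lt_or_gt_of_ne h1 with h1 | h1 <;> rcases lt_or_gt_of_ne h2 with h2 | h2 <;>
  rcases lt_or_gt_of_ne h3 with h3 | h3 <;> rcases lt_or_gt_of_ne h4 with h4 | h4 <;>
  rcases lt_or_gt_of_ne h5 with h5 | h5 <;>
  simp only [sg_pos, sg_neg, h1, h2, h3, h4, h5, imR] <;> first | rfl | skip
  all_goals exfalso
  all_goals
    first
    | nlinarith [mul_pos hN h5, mul_neg_of_pos_of_neg h1 h4, mul_neg_of_pos_of_neg h3 h2]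
    | nlinarith [mul_pos hN h5, mul_neg_of_pos_of_neg h1 h4, mul_neg_of_neg_of_pos h3 h2]
    | nlinarith [mul_pos hN h5, mul_neg_of_neg_of_pos h1 h4, mul_neg_of_pos_of_neg h3 h2]
    | nlinarith [mul_pos hN h5, mul_neg_of_neg_of_pos h1 h4, mul_neg_of_neg_of_pos h3 h2]
    | nlinarith [mul_neg_of_pos_of_neg hN h5, mul_pos h1 h4, mul_pos h3 h2]
    | nlinarith [mul_neg_of_pos_of_neg hN h5, mul_pos h1 h4, mul_pos_of_neg_of_neg h3 h2]
    | nlinarith [mul_neg_of_pos_of_neg hN h5, mul_pos_of_neg_of_neg h1 h4, mul_pos h3 h2]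
    | nlinarith [mul_neg_of_pos_of_neg hN h5, mul_pos_of_neg_of_neg h1 h4,
        mul_pos_of_neg_of_neg h3 h2]

theorem quR_ok (N M X : ℝ) {c1 c2 c3 c4 d1 d2 d3 d4 : ℝ} (h1 : c1 ≠ 0) (h2 : c2 ≠ 0)
    (h3 : c3 ≠ 0) (h4 : c4 ≠ 0) (k1 : d1 ≠ 0) (k2 : d2 ≠ 0) (k3 : d3 ≠ 0) (k4 : d4 ≠ 0)
    (hN : 0 < N) (hM : 0 < M) (hA : N * X = -(d2 * c2 + c1 * d3))
    (hB : M * X = d4 * c4 + c3 * d1) :
    quR (sg c1) (sg c2) (sg c3) (sg c4) (sg d1) (sg d2) (sg d3) (sg d4) = true := by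
  unfold quR
  by_contra hcon
  simp only [Bool.or_eq_true, Bool.not_eq_true', not_or, Bool.not_eq_false,
    Bool.and_eq_true, beq_iff_eq] at hcon
  obtain ⟨⟨⟨e1, e2⟩, e3⟩, ⟨f1, f2⟩, f3⟩ := hcon
  have key : 0 < (d2 * c2 + c1 * d3) * (d4 * c4 + c3 * d1) := by
    rcases lt_or_gt_of_ne h1 with h1 | h1 <;> rcases lt_or_gt_of_ne k1 with k1 | k1
    · have a2 : c2 < 0 := by
        rcases lt_or_gt_of_ne h2 with h | h
        · exact h
        · rw [sg_neg h1, sg_pos h] at e1; simp at e1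
      have a3 : c3 < 0 := by
        rcases lt_or_gt_of_ne h3 with h | h
        · exact h
        · rw [sg_neg a2, sg_pos h] at e2; simp at e2
      have a4 : c4 < 0 := by
        rcases lt_or_gt_of_ne h4 with h | h
        · exact h
        · rw [sg_neg a3, sg_pos h] at e3; simp at e3
      have b2 : d2 < 0 := by
        rcases lt_or_gt_of_ne k2 with h | h
        · exact h
        · rw [sg_neg k1, sg_pos h] at f1; simp at f1
      have b3 : d3 < 0 := by
        rcases lt_or_gt_of_ne k3 with h | h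
        · exact h
        · rw [sg_neg b2, sg_pos h] at f2; simp at f2
      have b4 : d4 < 0 := by
        rcases lt_or_gt_of_ne k4 with h | h
        · exact h
        · rw [sg_neg b3, sg_pos h] at f3; simp at f3
      exact mul_pos (add_pos (mul_pos_of_neg_of_neg b2 a2) (mul_pos_of_neg_of_neg h1 b3))
        (add_pos (mul_pos_of_neg_of_neg b4 a4) (mul_pos_of_neg_of_neg a3 k1))
    · have a2 : c2 < 0 := by
        rcases lt_or_gt_of_ne h2 with h | h
        · exact h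
        · rw [sg_neg h1, sg_pos h] at e1; simp at e1
      have a3 : c3 < 0 := by
        rcases lt_or_gt_of_ne h3 with h | h
        · exact h
        · rw [sg_neg a2, sg_pos h] at e2; simp at e2
      have a4 : c4 < 0 := by
        rcases lt_or_gt_of_ne h4 with h | h
        · exact h
        · rw [sg_neg a3, sg_pos h] at e3; simp at e3
      have b2 : 0 < d2 := by
        rcases lt_or_gt_of_ne k2 with h | h
        · rw [sg_pos k1, sg_neg h] at f1; simp at f1
        · exact h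
      have b3 : 0 < d3 := by
        rcases lt_or_gt_of_ne k3 with h | h
        · rw [sg_pos b2, sg_neg h] at f2; simp at f2
        · exact h
      have b4 : 0 < d4 := by
        rcases lt_or_gt_of_ne k4 with h | h
        · rw [sg_pos b3, sg_neg h] at f3; simp at f3
        · exact h
      exact mul_pos_of_neg_of_neg
        (add_neg (mul_neg_of_pos_of_neg b2 a2) (mul_neg_of_neg_of_pos h1 b3))
        (add_neg (mul_neg_of_pos_of_neg b4 a4) (mul_neg_of_neg_of_pos a3 k1))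
    · have a2 : 0 < c2 := by
        rcases lt_or_gt_of_ne h2 with h | h
        · rw [sg_pos h1, sg_neg h] at e1; simp at e1
        · exact h
      have a3 : 0 < c3 := by
        rcases lt_or_gt_of_ne h3 with h | h
        · rw [sg_pos a2, sg_neg h] at e2; simp at e2
        · exact h
      have a4 : 0 < c4 := by
        rcases lt_or_gt_of_ne h4 with h | h
        · rw [sg_pos a3, sg_neg h] at e3; simp at e3
        · exact h
      have b2 : d2 < 0 := by
        rcases lt_or_gt_of_ne k2 with h | h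
        · exact h
        · rw [sg_neg k1, sg_pos h] at f1; simp at f1
      have b3 : d3 < 0 := by
        rcases lt_or_gt_of_ne k3 with h | h
        · exact h
        · rw [sg_neg b2, sg_pos h] at f2; simp at f2
      have b4 : d4 < 0 := by
        rcases lt_or_gt_of_ne k4 with h | h
        · exact h
        · rw [sg_neg b3, sg_pos h] at f3; simp at f3
      exact mul_pos_of_neg_of_neg
        (add_neg (mul_neg_of_neg_of_pos b2 a2) (mul_neg_of_pos_of_neg h1 b3))
        (add_neg (mul_neg_of_neg_of_pos b4 a4) (mul_neg_of_pos_of_neg a3 k1))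
    · have a2 : 0 < c2 := by
        rcases lt_or_gt_of_ne h2 with h | h
        · rw [sg_pos h1, sg_neg h] at e1; simp at e1
        · exact h
      have a3 : 0 < c3 := by
        rcases lt_or_gt_of_ne h3 with h | h
        · rw [sg_pos a2, sg_neg h] at e2; simp at e2
        · exact h
      have a4 : 0 < c4 := by
        rcases lt_or_gt_of_ne h4 with h | h
        · rw [sg_pos a3, sg_neg h] at e3; simp at e3
        · exact h
      have b2 : 0 < d2 := by
        rcases lt_or_gt_of_ne k2 with h | h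
        · rw [sg_pos k1, sg_neg h] at f1; simp at f1
        · exact h
      have b3 : 0 < d3 := by
        rcases lt_or_gt_of_ne k3 with h | h
        · rw [sg_pos b2, sg_neg h] at f2; simp at f2
        · exact h
      have b4 : 0 < d4 := by
        rcases lt_or_gt_of_ne k4 with h | h
        · rw [sg_pos b3, sg_neg h] at f3; simp at f3
        · exact h
      positivity
  have h2' : (N * X) * (M * X) < 0 := by
    rw [hA, hB]; linarith
  nlinarith [mul_nonneg (mul_pos hN hM).le (mul_self_nonneg X)]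

/-- `T = [abd]`, `G = [abc]`, `A = [bdc]`, `B = [dac]`, `p = (a-c).(b-c)`, `q = (a-d).(b-d)`. -/
theorem inR_ok (U V : ℝ) {T G A B p q : ℝ} (h1 : T ≠ 0) (h2 : G ≠ 0) (h3 : A ≠ 0) (h4 : B ≠ 0)
    (k1 : p ≠ 0) (k2 : q ≠ 0) (hU : 0 ≤ U) (hV : 0 ≤ V) (hT : T = A + B + G)
    (h : T ^ 2 * p = q * (T * G + 2 * (A * B)) - A * (B + G) * U - B * (A + G) * V) :
    inR (sg T) (sg G) (sg A) (sg B) (sg p) (sg q) = true := by
  unfold inR
  by_contra hcon
  simp only [Bool.or_eq_true, Bool.not_eq_true', not_or, Bool.not_eq_false,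
    Bool.and_eq_true, beq_iff_eq] at hcon
  obtain ⟨⟨⟨⟨e1, e2⟩, e3⟩, f1⟩, f2⟩ := hcon
  have hp : 0 < p := by simpa [sg] using f1
  have hq : q < 0 := by
    rcases lt_or_gt_of_ne k2 with h | h
    · exact h
    · exact absurd (sg_pos h) f2
  have key : 0 < T * G ∧ 0 < A * B ∧ 0 < A * G ∧ 0 < B * G := by
    rcases lt_or_gt_of_ne h1 with h1 | h1
    · have a2 : G < 0 := by
        rcases lt_or_gt_of_ne h2 with h | h
        · exact h
        · rw [sg_neg h1, sg_pos h] at e1; simp at e1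
      have a3 : A < 0 := by
        rcases lt_or_gt_of_ne h3 with h | h
        · exact h
        · rw [sg_neg h1, sg_pos h] at e2; simp at e2
      have a4 : B < 0 := by
        rcases lt_or_gt_of_ne h4 with h | h
        · exact h
        · rw [sg_neg h1, sg_pos h] at e3; simp at e3
      exact ⟨mul_pos_of_neg_of_neg h1 a2, mul_pos_of_neg_of_neg a3 a4,
        mul_pos_of_neg_of_neg a3 a2, mul_pos_of_neg_of_neg a4 a2⟩
    · have a2 : 0 < G := by
        rcases lt_or_gt_of_ne h2 with h | h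
        · rw [sg_pos h1, sg_neg h] at e1; simp at e1
        · exact h
      have a3 : 0 < A := by
        rcases lt_or_gt_of_ne h3 with h | h
        · rw [sg_pos h1, sg_neg h] at e2; simp at e2
        · exact h
      have a4 : 0 < B := by
        rcases lt_or_gt_of_ne h4 with h | h
        · rw [sg_pos h1, sg_neg h] at e3; simp at e3
        · exact h
      exact ⟨mul_pos h1 a2, mul_pos a3 a4, mul_pos a3 a2, mul_pos a4 a2⟩
  obtain ⟨g1, g2, g3, g4⟩ := key
  have e5 : 0 < T ^ 2 * p := by positivity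
  have e6 : q * (T * G + 2 * (A * B)) < 0 := mul_neg_of_neg_of_pos hq (by linarith)
  have e7 : 0 ≤ A * (B + G) * U := mul_nonneg (by nlinarith) hU
  have e8 : 0 ≤ B * (A + G) * V := mul_nonneg (by nlinarith) hV
  linarith

variable {n : ℕ} {X Y : Fin n → ℝ}

theorem dot_symm (i j k : Fin n) : dot X Y i j k = dot X Y i k j := by unfold dot; ring

theorem dot_add (i j k : Fin n) (hG : Gen X Y) (hij : i ≠ j) (hik : i ≠ k) (hjk : j ≠ k) :
    0 < dot X Y i j k + dot X Y j i k := by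
  have hc := (hG i j k hij hik hjk).2
  have h1 : dot X Y i j k + dot X Y j i k = (X j - X i) ^ 2 + (Y j - Y i) ^ 2 := by
    unfold dot; ring
  rw [h1]
  rcases eq_or_ne (X j - X i) 0 with h | h
  · rcases eq_or_ne (Y j - Y i) 0 with h' | h'
    · exfalso; apply hc; unfold crs; rw [h, h']; ring
    · positivity
  · positivity

theorem bits (hG : Gen X Y) {i j k : Fin n} (hij : i ≠ j) (hik : i ≠ k) (hjk : j ≠ k) :
    dA (st X Y i j k) = sg (dot X Y i j k) ∧ dB (st X Y i j k) = sg (dot X Y j i k) ∧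
    dC (st X Y i j k) = sg (dot X Y k i j) := by
  have s1 := dot_add i j k hG hij hik hjk
  have s2 := dot_add i k j hG hik hij hjk.symm
  have s3 := dot_add j k i hG hjk hij.symm hik.symm
  rw [dot_symm i k j] at s2
  rw [dot_symm j k i, dot_symm k j i] at s3
  have n1 := (hG i j k hij hik hjk).1
  have n2 := (hG j i k hij.symm hjk hik).1
  have n3 := (hG k i j hik.symm hjk.symm hij).1
  unfold st
  rw [if_neg (by tauto)]
  by_cases a : dot X Y i j k < 0
  · rw [if_pos a]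
    refine ⟨by rw [sg_neg a]; rfl, by rw [sg_pos (by linarith)]; rfl,
      by rw [sg_pos (by linarith)]; rfl⟩
  · have a' : 0 < dot X Y i j k := lt_of_le_of_ne (not_lt.mp a) n1.symm
    rw [if_neg a]
    by_cases b : dot X Y j i k < 0
    · rw [if_pos b]
      refine ⟨by rw [sg_pos a']; rfl, by rw [sg_neg b]; rfl,
        by rw [sg_pos (by linarith)]; rfl⟩
    · have b' : 0 < dot X Y j i k := lt_of_le_of_ne (not_lt.mp b) n2.symm
      rw [if_neg b]
      by_cases c : dot X Y k i j < 0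
      · rw [if_pos c]
        refine ⟨by rw [sg_pos a']; rfl, by rw [sg_pos b']; rfl, by rw [sg_neg c]; rfl⟩
      · have c' : 0 < dot X Y k i j := lt_of_le_of_ne (not_lt.mp c) n3.symm
        rw [if_neg c]
        refine ⟨by rw [sg_pos a']; rfl, by rw [sg_pos b']; rfl, by rw [sg_pos c']; rfl⟩

theorem st_ext {s t : St} (h1 : dA s = dA t) (h2 : dB s = dB t) (h3 : dC s = dC t) : s = t := by
  cases s <;> cases t <;> first | rfl | (simp [dA, dB, dC] at h1 h2 h3)

theorem st_deg {i j k : Fin n} (h : i = j ∨ i = k ∨ j = k) : st X Y i j k = .a := by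
  unfold st; rw [if_pos h]

theorem sw12 (hG : Gen X Y) (i j k : Fin n) : st X Y j i k = r12 (st X Y i j k) := by
  by_cases h : i = j ∨ i = k ∨ j = k
  · rw [st_deg h, st_deg (by tauto)]; rfl
  · push Not at h
    obtain ⟨hij, hik, hjk⟩ := h
    obtain ⟨a1, a2, a3⟩ := bits hG hij hik hjk
    obtain ⟨b1, b2, b3⟩ := bits hG hij.symm hjk hik
    have e1 : ∀ s, dA (r12 s) = dB s := by intro s; cases s <;> rfl
    have e2 : ∀ s, dB (r12 s) = dA s := by intro s; cases s <;> rfl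
    have e3 : ∀ s, dC (r12 s) = dC s := by intro s; cases s <;> rfl
    apply st_ext
    · rw [b1, e1, a2]
    · rw [b2, e2, a1]
    · rw [b3, e3, a3, dot_symm]

theorem sw23 (hG : Gen X Y) (i j k : Fin n) : st X Y i k j = r23 (st X Y i j k) := by
  by_cases h : i = j ∨ i = k ∨ j = k
  · rw [st_deg h, st_deg (by tauto)]; rfl
  · push Not at h
    obtain ⟨hij, hik, hjk⟩ := h
    obtain ⟨a1, a2, a3⟩ := bits hG hij hik hjk
    obtain ⟨b1, b2, b3⟩ := bits hG hik hij hjk.symm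
    have e1 : ∀ s, dA (r23 s) = dA s := by intro s; cases s <;> rfl
    have e2 : ∀ s, dB (r23 s) = dC s := by intro s; cases s <;> rfl
    have e3 : ∀ s, dC (r23 s) = dB s := by intro s; cases s <;> rfl
    apply st_ext
    · rw [b1, e1, a1, dot_symm]
    · rw [b2, e2, a3]
    · rw [b3, e3, a2]

/-- squared distance -/
noncomputable def nn (X Y : Fin n → ℝ) (i j : Fin n) : ℝ := (X j - X i) ^ 2 + (Y j - Y i) ^ 2

theorem nn_pos (hG : Gen X Y) {i j k : Fin n} (hij : i ≠ j) (hik : i ≠ k) (hjk : j ≠ k) :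
    0 < nn X Y i j := by
  have := dot_add i j k hG hij hik hjk
  have h1 : dot X Y i j k + dot X Y j i k = nn X Y i j := by
    unfold dot nn; ring
  linarith

theorem rules_ok (hG : Gen X Y) {i j k l : Fin n} (hij : i ≠ j) (hik : i ≠ k) (hil : i ≠ l)
    (hjk : j ≠ k) (hjl : j ≠ l) (hkl : k ≠ l) :
    rules (st X Y i j k) (st X Y i j l) (st X Y i k l) (st X Y j k l)
      (ori X Y i j k) (ori X Y i j l) (ori X Y i k l) (ori X Y j k l) = true := by
  obtain ⟨a1, a2, a3⟩ := bits hG hij hik hjk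
  obtain ⟨b1, b2, b3⟩ := bits hG hij hil hjl
  obtain ⟨c1, c2, c3⟩ := bits hG hik hil hkl
  obtain ⟨d1, d2, d3⟩ := bits hG hjk hjl hkl
  have oo : ∀ x y z, ori X Y x y z = sg (crs X Y x y z) := fun _ _ _ => rfl
  have n1 := (hG i j k hij hik hjk).1
  have n2 := (hG j i k hij.symm hjk hik).1
  have n3 := (hG k i j hik.symm hjk.symm hij).1
  have m1 := (hG i j l hij hil hjl).1
  have m2 := (hG j i l hij.symm hjl hil).1
  have m3 := (hG l i j hil.symm hjl.symm hij).1
  have p1 := (hG i k l hik hil hkl).1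
  have p2 := (hG k i l hik.symm hkl hil).1
  have p3 := (hG l i k hil.symm hkl.symm hik).1
  have q1 := (hG j k l hjk hjl hkl).1
  have q2 := (hG k j l hjk.symm hkl hjl).1
  have q3 := (hG l j k hjl.symm hkl.symm hjk).1
  have r1 := (hG i j k hij hik hjk).2
  have r2 := (hG i j l hij hil hjl).2
  have r3 := (hG i k l hik hil hkl).2
  have r4 := (hG j k l hjk hjl hkl).2
  have t1 := nn_pos hG hij hik hjk
  have t2 := nn_pos hG hik hij hjk.symm
  have t3 := nn_pos hG hil hik hkl.symm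
  have t4 := nn_pos hG hjk hjl hkl
  have t5 := nn_pos hG hjl hjk hkl.symm
  have t6 := nn_pos hG hkl hjk.symm hjl.symm
  have r1' := neg_ne_zero.mpr r1
  have r2' := neg_ne_zero.mpr r2
  have r3' := neg_ne_zero.mpr r3
  have r4' := neg_ne_zero.mpr r4
  unfold rules
  rw [a1, a2, a3, b1, b2, b3, c1, c2, c3, d1, d2, d3]
  simp only [oo]
  simp only [sg_not r1, sg_not r2, sg_not r3, sg_not r4]
  simp only [Bool.and_eq_true]
  refine ⟨⟨⟨⟨⟨⟨⟨⟨⟨⟨⟨⟨⟨⟨⟨⟨⟨⟨⟨⟨⟨⟨⟨⟨⟨⟨⟨⟨⟨⟨⟨⟨⟨⟨⟨⟨⟨⟨?_, ?_⟩, ?_⟩, ?_⟩, ?_⟩, ?_⟩, ?_⟩, ?_⟩, ?_⟩, ?_⟩, ?_⟩, ?_⟩,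
    ?_⟩, ?_⟩, ?_⟩, ?_⟩, ?_⟩, ?_⟩, ?_⟩, ?_⟩, ?_⟩, ?_⟩, ?_⟩, ?_⟩, ?_⟩, ?_⟩, ?_⟩, ?_⟩, ?_⟩, ?_⟩,
    ?_⟩, ?_⟩, ?_⟩, ?_⟩, ?_⟩, ?_⟩, ?_⟩, ?_⟩, ?_⟩
  · exact reR_ok (nn X Y i k) n1 p1 r1 r3 m1 t2 (by unfold dot crs nn; ring)
  · exact imR_ok (nn X Y i k) n1 p1 r1 r3 r2 t2 (by unfold dot crs nn; ring)
  · exact reR_ok (nn X Y i l) m1 p1 r2 r3' n1 t3 (by unfold dot crs nn; ring)
  · exact imR_ok (nn X Y i l) m1 p1 r2 r3' r1 t3 (by unfold dot crs nn; ring)
  · exact reR_ok (nn X Y i j) n1 m1 r1' r2 p1 t1 (by unfold dot crs nn; ring)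
  · exact imR_ok (nn X Y i j) n1 m1 r1' r2 r3 t1 (by unfold dot crs nn; ring)
  · exact reR_ok (nn X Y j k) n2 q1 r1' r4 m2 t4 (by unfold dot crs nn; ring)
  · exact imR_ok (nn X Y j k) n2 q1 r1' r4 r2' t4 (by unfold dot crs nn; ring)
  · exact reR_ok (nn X Y j l) m2 q1 r2' r4' n2 t5 (by unfold dot crs nn; ring)
  · exact imR_ok (nn X Y j l) m2 q1 r2' r4' r1' t5 (by unfold dot crs nn; ring)
  · exact reR_ok (nn X Y i j) n2 m2 r1 r2' q1 t1 (by unfold dot crs nn; ring)
  · exact imR_ok (nn X Y i j) n2 m2 r1 r2' r4 t1 (by unfold dot crs nn; ring)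
  · exact reR_ok (nn X Y j k) n3 q2 r1 r4' p2 t4 (by unfold dot crs nn; ring)
  · exact imR_ok (nn X Y j k) n3 q2 r1 r4' r3' t4 (by unfold dot crs nn; ring)
  · exact reR_ok (nn X Y k l) p2 q2 r3' r4 n3 t6 (by unfold dot crs nn; ring)
  · exact imR_ok (nn X Y k l) p2 q2 r3' r4 r1 t6 (by unfold dot crs nn; ring)
  · exact reR_ok (nn X Y i k) n3 p2 r1' r3' q2 t2 (by unfold dot crs nn; ring)
  · exact imR_ok (nn X Y i k) n3 p2 r1' r3' r4' t2 (by unfold dot crs nn; ring)
  · exact reR_ok (nn X Y j l) m3 q3 r2 r4 p3 t5 (by unfold dot crs nn; ring)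
  · exact imR_ok (nn X Y j l) m3 q3 r2 r4 r3 t5 (by unfold dot crs nn; ring)
  · exact reR_ok (nn X Y k l) p3 q3 r3 r4' m3 t6 (by unfold dot crs nn; ring)
  · exact imR_ok (nn X Y k l) p3 q3 r3 r4' r2 t6 (by unfold dot crs nn; ring)
  · exact reR_ok (nn X Y i l) m3 p3 r2' r3 q3 t3 (by unfold dot crs nn; ring)
  · exact imR_ok (nn X Y i l) m3 p3 r2' r3 r4 t3 (by unfold dot crs nn; ring)
  · exact quR_ok (nn X Y j k) (nn X Y i l)
      ((X j - X i) * (Y l - Y k) - (Y j - Y i) * (X l - X k)) r1 r4 r3 r2 m1 n2 q2 p3 t4 t3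
      (by unfold dot crs nn; ring) (by unfold dot crs nn; ring)
  · exact quR_ok (nn X Y j l) (nn X Y i k)
      ((X j - X i) * (Y k - Y l) - (Y j - Y i) * (X k - X l)) r2 r4' r3' r1 n1 m2 q3 p2 t5 t2
      (by unfold dot crs nn; ring) (by unfold dot crs nn; ring)
  · exact quR_ok (nn X Y j k) (nn X Y i l)
      ((X k - X i) * (Y l - Y j) - (Y k - Y i) * (X l - X j)) r1' r4' r2 r3 p1 n3 q1 m3 t4 t3
      (by unfold dot crs nn; ring) (by unfold dot crs nn; ring)
  · exact inR_ok (nn X Y j k) (nn X Y j l) r4 r3 r2' r1 p1 q1 t4.le t5.le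
      (by unfold crs; ring) (by unfold dot crs nn; ring)
  · exact inR_ok (nn X Y j k) (nn X Y k l) r4' r2 r3' r1' m1 q2 t4.le t6.le
      (by unfold crs; ring) (by unfold dot crs nn; ring)
  · exact inR_ok (nn X Y j l) (nn X Y k l) r4 r1 r3 r2' n1 q3 t5.le t6.le
      (by unfold crs; ring) (by unfold dot crs nn; ring)
  · exact inR_ok (nn X Y i k) (nn X Y i l) r3 r4 r2 r1' q1 p1 t2.le t3.le
      (by unfold crs; ring) (by unfold dot crs nn; ring)
  · exact inR_ok (nn X Y i k) (nn X Y k l) r3' r2' r4' r1 m2 p2 t2.le t6.le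
      (by unfold crs; ring) (by unfold dot crs nn; ring)
  · exact inR_ok (nn X Y i l) (nn X Y k l) r3 r1' r4 r2 n2 p3 t3.le t6.le
      (by unfold crs; ring) (by unfold dot crs nn; ring)
  · exact inR_ok (nn X Y i j) (nn X Y i l) r2 r4' r3 r1 q2 m1 t1.le t3.le
      (by unfold crs; ring) (by unfold dot crs nn; ring)
  · exact inR_ok (nn X Y i j) (nn X Y j l) r2' r3' r4 r1' p2 m2 t1.le t5.le
      (by unfold crs; ring) (by unfold dot crs nn; ring)
  · exact inR_ok (nn X Y i l) (nn X Y j l) r2 r1 r4' r3 n3 m3 t3.le t5.le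
      (by unfold crs; ring) (by unfold dot crs nn; ring)
  · exact inR_ok (nn X Y i j) (nn X Y i k) r1 r4 r3' r2 q3 n1 t1.le t2.le
      (by unfold crs; ring) (by unfold dot crs nn; ring)
  · exact inR_ok (nn X Y i j) (nn X Y j k) r1' r3 r4' r2' p3 n2 t1.le t4.le
      (by unfold crs; ring) (by unfold dot crs nn; ring)
  · exact inR_ok (nn X Y i k) (nn X Y j k) r1 r2 r4 r3' m3 n3 t2.le t4.le
      (by unfold crs; ring) (by unfold dot crs nn; ring)

/-- Packet GEO. -/
theorem geo : GeoStmt := by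
  intro n X Y hG
  refine ⟨sw12 hG, sw23 hG, ?_⟩
  intro i j k l hij hik hil hjk hjl hkl
  exact ok4_of_rules (rules_ok hG hij hik hil hjk hjl hkl)

end Pool.Agent.Helper22.Acute
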